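import Pool.Agent.K1H34.HYC.Stm
import Pool.Agent.QCube.Lll

/-!
# Project HYC, piece TWO: McDiarmid for the labels which are used exactly twice
-/

set_option autoImplicit false
open Classical Finset

namespace Pool.Agent.K1H34.HYC

/-- the event that `z` is a witness of the label `l` -/
private def TwW {X : Type} {N : ℕ} (Y : Finset X) (z : X × X) (l : Fin N) (ω : X → Fin N) : Prop :=
  ω z.1 = l ∧ ω z.2 = l ∧ ∀ y ∈ Y, ω y = l → y = z.1 ∨ y = z.2

private lemma two_cnt {X : Type} [Fintype X] {N : ℕ} (hN : 1 ≤ N) (Y : Finset X) (z : X × X)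
    (h1 : z.1 ∈ Y) (h2 : z.2 ∈ Y) (h12 : z.1 ≠ z.2) (l : Fin N) :
    (N : ℝ) ^ (Fintype.card X) * ((1 / N) ^ 2 * (1 - (Y.card : ℝ) / N)) ≤
      ((univ.filter (fun ω : X → Fin N => TwW Y z l ω)).card : ℝ) := by
  have hN0 : (0 : ℝ) < N := by exact_mod_cast hN
  have hN1 : (1 : ℝ) ≤ N := by exact_mod_cast hN
  set A : X → Finset (Fin N) := fun x => if x = z.1 ∨ x = z.2 then {l} else
    if x ∈ Y then univ.erase l else univ with hA
  have hset : (univ.filter (fun ω : X → Fin N => TwW Y z l ω)) = Fintype.piFinset A := by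
    ext ω
    rw [mem_filter, Fintype.mem_piFinset]
    constructor
    · rintro ⟨-, a1, a2, a3⟩ x
      simp only [hA]
      split_ifs with c1 c2
      · rw [mem_singleton]
        rcases c1 with rfl | rfl
        · exact a1
        · exact a2
      · rw [mem_erase]
        exact ⟨fun h => c1 (a3 x c2 h), mem_univ _⟩
      · exact mem_univ _
    · intro h
      refine ⟨mem_univ _, ?_, ?_, fun y hy hyl => ?_⟩
      · have h3 := h z.1
        have e : A z.1 = {l} := if_pos (Or.inl rfl)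
        rw [e, mem_singleton] at h3
        exact h3
      · have h3 := h z.2
        have e : A z.2 = {l} := if_pos (Or.inr rfl)
        rw [e, mem_singleton] at h3
        exact h3
      · by_contra hc
        have h3 := h y
        have e : A y = univ.erase l := (if_neg hc).trans (if_pos hy)
        rw [e, mem_erase] at h3
        exact h3.1 hyl
  rw [hset, Fintype.card_piFinset]
  set g : X → ℝ := fun x => if x = z.1 ∨ x = z.2 then 1 / N else
    if x ∈ Y then 1 - 1 / N else 1 with hg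
  have hAg : ∀ x, ((A x).card : ℝ) = N * g x := by
    intro x
    simp only [hA, hg]
    split_ifs with c1 c2
    · rw [card_singleton]
      field_simp
      norm_num
    · rw [card_erase_of_mem (mem_univ _), card_univ, Fintype.card_fin, Nat.cast_sub hN]
      field_simp
      push_cast
      ring
    · rw [card_univ, Fintype.card_fin, mul_one]
  push_cast
  rw [Finset.prod_congr rfl (fun x _ => hAg x), Finset.prod_mul_distrib, Finset.prod_const,
    card_univ]
  refine mul_le_mul_of_nonneg_left ?_ (by positivity)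
  have e1 : ∏ x, g x = ∏ x ∈ Y, g x := by
    symm
    apply Finset.prod_subset (subset_univ Y)
    intro x _ hx
    simp only [hg]
    rw [if_neg, if_neg hx]
    rintro (rfl | rfl)
    · exact hx h1
    · exact hx h2
  have h2' : z.2 ∈ Y.erase z.1 := mem_erase.2 ⟨h12.symm, h2⟩
  have e2 : ∏ x ∈ Y, g x = g z.1 * (g z.2 * ∏ x ∈ (Y.erase z.1).erase z.2, g x) := by
    rw [← Finset.mul_prod_erase Y g h1, ← Finset.mul_prod_erase (Y.erase z.1) g h2']
  have e3 : g z.1 = 1 / N := if_pos (Or.inl rfl)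
  have e4 : g z.2 = 1 / N := if_pos (Or.inr rfl)
  have e5 : ∏ x ∈ (Y.erase z.1).erase z.2, g x = (1 - 1 / (N : ℝ)) ^ (Y.card - 1 - 1) := by
    rw [← card_erase_of_mem h1, ← card_erase_of_mem h2']
    apply Finset.prod_eq_pow_card
    intro x hx
    rw [mem_erase, mem_erase] at hx
    simp only [hg]
    rw [if_neg, if_pos hx.2.2]
    rintro (h | h)
    · exact hx.2.1 h
    · exact hx.1 h
  rw [e1, e2, e3, e4, e5]
  have hb := one_add_mul_le_pow (a := -(1 / (N : ℝ))) (by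
    have : 1 / (N : ℝ) ≤ 1 := by rw [div_le_one hN0]; exact hN1
    linarith) (Y.card - 1 - 1)
  have hc : ((Y.card - 1 - 1 : ℕ) : ℝ) ≤ Y.card := by
    have : Y.card - 1 - 1 ≤ Y.card := by omega
    exact_mod_cast this
  have hd : 1 - (Y.card : ℝ) / N ≤ (1 - 1 / (N : ℝ)) ^ (Y.card - 1 - 1) := by
    have e6 : (1 : ℝ) + -(1 / (N : ℝ)) = 1 - 1 / N := by ring
    rw [e6] at hb
    refine le_trans ?_ hb
    have : ((Y.card - 1 - 1 : ℕ) : ℝ) / N ≤ Y.card / N := by gcongr
    have e7 : ((Y.card - 1 - 1 : ℕ) : ℝ) * -(1 / (N : ℝ)) = -(((Y.card - 1 - 1 : ℕ) : ℝ) / N) := by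
      ring
    rw [e7]
    linarith
  have he := mul_le_mul_of_nonneg_left hd (show (0 : ℝ) ≤ (1 / (N : ℝ)) ^ 2 by positivity)
  calc _ ≤ (1 / (N : ℝ)) ^ 2 * (1 - 1 / (N : ℝ)) ^ (Y.card - 1 - 1) := he
    _ = _ := by ring

/-- a label has at most two witnesses -/
private lemma two_wit {X : Type} {N : ℕ} (Y : Finset X) (E : Finset (X × X))
    (hE : ∀ z ∈ E, z.1 ∈ Y ∧ z.2 ∈ Y ∧ z.1 ≠ z.2 ∧ (z.2, z.1) ∈ E) (ω : X → Fin N) (l : Fin N) :
    (E.filter (fun z => TwW Y z l ω)).card ≤ 2 * (if l ∈ two Y E ω then 1 else 0) := by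
  by_cases h : ∃ z ∈ E, TwW Y z l ω
  · obtain ⟨z, hz, hw⟩ := h
    have hl : l ∈ two Y E ω := by
      unfold two
      rw [mem_filter]
      exact ⟨mem_univ _, z, hz, hw.1, hw.2.1, hw.2.2⟩
    rw [if_pos hl]
    have hsub : E.filter (fun z => TwW Y z l ω) ⊆ {z, (z.2, z.1)} := by
      intro z' hz'
      rw [mem_filter] at hz'
      obtain ⟨hz'E, hw'⟩ := hz'
      obtain ⟨b1, b2, b3, _⟩ := hE z' hz'E
      have c1 := hw.2.2 z'.1 b1 hw'.1
      have c2 := hw.2.2 z'.2 b2 hw'.2.1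
      rw [mem_insert, mem_singleton]
      rcases c1 with c1 | c1 <;> rcases c2 with c2 | c2
      · exact absurd (c1.trans c2.symm) b3
      · left; exact Prod.ext c1 c2
      · right; exact Prod.ext c1 c2
      · exact absurd (c1.trans c2.symm) b3
    exact (card_le_card hsub).trans (card_le_two)
  · have : E.filter (fun z => TwW Y z l ω) = ∅ := by
      apply filter_eq_empty_iff.2
      intro z hz hw
      exact h ⟨z, hz, hw⟩
    rw [this, card_empty]
    exact Nat.zero_le _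

private lemma two_mean {X : Type} [Fintype X] {N : ℕ} (hN : 1 ≤ N) (Y : Finset X)
    (E : Finset (X × X))
    (hE : ∀ z ∈ E, z.1 ∈ Y ∧ z.2 ∈ Y ∧ z.1 ≠ z.2 ∧ (z.2, z.1) ∈ E) :
    (N : ℝ) ^ (Fintype.card X) * ((E.card : ℝ) / (2 * N) * (1 - (Y.card : ℝ) / N)) ≤
      ∑ ω : X → Fin N, ((two Y E ω).card : ℝ) := by
  have hN0 : (0 : ℝ) < N := by exact_mod_cast hN
  -- the number of witnesses
  have h1 : ∀ ω : X → Fin N, ∑ l : Fin N, ((E.filter (fun z => TwW Y z l ω)).card : ℝ) ≤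
      2 * ((two Y E ω).card : ℝ) := by
    intro ω
    calc ∑ l : Fin N, ((E.filter (fun z => TwW Y z l ω)).card : ℝ)
        ≤ ∑ l : Fin N, ((2 * (if l ∈ two Y E ω then 1 else 0) : ℕ) : ℝ) := by
          apply sum_le_sum
          intro l _
          exact_mod_cast two_wit Y E hE ω l
      _ = 2 * ((two Y E ω).card : ℝ) := by
          push_cast
          rw [← Finset.mul_sum]
          congr 1
          rw [Finset.sum_ite_mem, univ_inter, sum_const, nsmul_eq_mul, mul_one]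
  have h2 : ∑ ω : X → Fin N, ∑ l : Fin N, ((E.filter (fun z => TwW Y z l ω)).card : ℝ) =
      ∑ z ∈ E, ∑ l : Fin N, ((univ.filter (fun ω : X → Fin N => TwW Y z l ω)).card : ℝ) := by
    have a1 : ∀ (ω : X → Fin N) (l : Fin N), ((E.filter (fun z => TwW Y z l ω)).card : ℝ) =
        ∑ z ∈ E, if TwW Y z l ω then (1 : ℝ) else 0 := by
      intro ω l
      rw [Finset.card_filter]; push_cast; rfl
    have a2 : ∀ (z : X × X) (l : Fin N),
        ((univ.filter (fun ω : X → Fin N => TwW Y z l ω)).card : ℝ) =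
        ∑ ω : X → Fin N, if TwW Y z l ω then (1 : ℝ) else 0 := by
      intro z l
      rw [Finset.card_filter]; push_cast; rfl
    simp_rw [a1, a2]
    rw [Finset.sum_congr rfl (fun ω _ => Finset.sum_comm), Finset.sum_comm]
    refine Finset.sum_congr rfl fun z _ => ?_
    rw [Finset.sum_comm]
  have h3 : (E.card : ℝ) * ((N : ℝ) * ((N : ℝ) ^ (Fintype.card X) *
      ((1 / N) ^ 2 * (1 - (Y.card : ℝ) / N)))) ≤
      ∑ z ∈ E, ∑ l : Fin N, ((univ.filter (fun ω : X → Fin N => TwW Y z l ω)).card : ℝ) := by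
    rw [← nsmul_eq_mul, ← Finset.sum_const]
    apply sum_le_sum
    intro z hz
    obtain ⟨b1, b2, b3, _⟩ := hE z hz
    have : (N : ℝ) * ((N : ℝ) ^ (Fintype.card X) * ((1 / N) ^ 2 * (1 - (Y.card : ℝ) / N))) =
        ∑ l : Fin N, (N : ℝ) ^ (Fintype.card X) * ((1 / N) ^ 2 * (1 - (Y.card : ℝ) / N)) := by
      rw [Finset.sum_const, card_univ, Fintype.card_fin, nsmul_eq_mul]
    rw [this]
    exact sum_le_sum fun l _ => two_cnt hN Y z b1 b2 b3 l
  have h4 : ∑ ω : X → Fin N, ∑ l : Fin N, ((E.filter (fun z => TwW Y z l ω)).card : ℝ) ≤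
      2 * ∑ ω : X → Fin N, ((two Y E ω).card : ℝ) := by
    rw [Finset.mul_sum]
    exact sum_le_sum fun ω _ => h1 ω
  rw [h2] at h4
  have h5 := h3.trans h4
  have e : (E.card : ℝ) * ((N : ℝ) * ((N : ℝ) ^ (Fintype.card X) *
      ((1 / N) ^ 2 * (1 - (Y.card : ℝ) / N)))) =
      2 * ((N : ℝ) ^ (Fintype.card X) * ((E.card : ℝ) / (2 * N) * (1 - (Y.card : ℝ) / N))) := by
    field_simp
  rw [e] at h5
  linarith

/-- changing one coordinate -/
private lemma two_change {X : Type} {N : ℕ} (Y : Finset X) (E : Finset (X × X))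
    (hE : ∀ z ∈ E, z.1 ∈ Y ∧ z.2 ∈ Y ∧ z.1 ≠ z.2 ∧ (z.2, z.1) ∈ E) (i : X) (s s' : X → Fin N)
    (h : ∀ j, j ≠ i → s j = s' j) (l : Fin N) (hl : i ∈ Y → l ≠ s i ∧ l ≠ s' i)
    (hm : l ∈ two Y E s) : l ∈ two Y E s' := by
  unfold two at hm ⊢
  rw [mem_filter] at hm ⊢
  obtain ⟨_, z, hz, h1, h2, h3⟩ := hm
  obtain ⟨b1, b2, b3, _⟩ := hE z hz
  have key : ∀ y ∈ Y, (s y = l ↔ s' y = l) := by
    intro y hy
    rcases eq_or_ne y i with rfl | hne
    · obtain ⟨c1, c2⟩ := hl hy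
      exact ⟨fun h => absurd h.symm c1, fun h => absurd h.symm c2⟩
    · rw [h y hne]
  exact ⟨mem_univ _, z, hz, (key _ b1).1 h1, (key _ b2).1 h2,
    fun y hy hyl => h3 y hy ((key y hy).2 hyl)⟩

private lemma two_diff {X : Type} {N : ℕ} (Y : Finset X) (E : Finset (X × X))
    (hE : ∀ z ∈ E, z.1 ∈ Y ∧ z.2 ∈ Y ∧ z.1 ≠ z.2 ∧ (z.2, z.1) ∈ E) (i : X) (s s' : X → Fin N)
    (h : ∀ j, j ≠ i → s j = s' j) :
    ((two Y E s).card : ℝ) - (two Y E s').card ≤ (if i ∈ Y then 2 else 0 : ℝ) := by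
  have hsub : two Y E s ⊆ two Y E s' ∪ (if i ∈ Y then {s i, s' i} else ∅) := by
    intro l hl
    rw [mem_union]
    by_cases hi : i ∈ Y
    · rw [if_pos hi, mem_insert, mem_singleton]
      by_cases h1 : l = s i
      · right; left; exact h1
      · by_cases h2 : l = s' i
        · right; right; exact h2
        · left
          exact two_change Y E hE i s s' h l (fun _ => ⟨h1, h2⟩) hl
    · left
      exact two_change Y E hE i s s' h l (fun h' => absurd h' hi) hl
  have h1 := (card_le_card hsub).trans (card_union_le _ _)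
  have h2 : ((if i ∈ Y then {s i, s' i} else ∅ : Finset (Fin N)).card : ℝ) ≤
      (if i ∈ Y then 2 else 0 : ℝ) := by
    split_ifs with hi
    · have : ({s i, s' i} : Finset (Fin N)).card ≤ 2 := card_le_two
      exact_mod_cast this
    · rw [card_empty]; norm_num
  have h3 : ((two Y E s).card : ℝ) ≤ (two Y E s').card +
      ((if i ∈ Y then {s i, s' i} else ∅ : Finset (Fin N)).card : ℝ) := by exact_mod_cast h1
  linarith

/-- McDiarmid for `two` -/
theorem t_TWO : S_TWO := by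
  intro a
  refine ⟨1000, fun D hD X _ Y E hE hY hDE => ?_⟩
  have hD0 : (1000 : ℝ) ≤ D := by exact_mod_cast hD
  have hDp : (0 : ℝ) < D := by linarith
  have hN : 1 ≤ D + 1 := by omega
  set N : ℕ := D + 1 with hNdef
  have hNR : (N : ℝ) = D + 1 := by rw [hNdef]; push_cast; ring
  have hN0 : (0 : ℝ) < N := by rw [hNR]; linarith
  set u : ℝ := D / 2 ^ (3 * a + 34) with hu
  have hu0 : 0 < u := by positivity
  have hcard : (Fintype.card (X → Fin N) : ℝ) = (N : ℝ) ^ (Fintype.card X) := by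
    rw [Fintype.card_fun, Fintype.card_fin]; push_cast; rfl
  have hNpow : (0 : ℝ) < (N : ℝ) ^ (Fintype.card X) := by positivity
  -- the size of Y
  have hYR : (Y.card : ℝ) * 2 ^ (a + 14) ≤ D := by exact_mod_cast hY
  have hY1 : (Y.card : ℝ) ≤ D / 2 ^ (a + 14) := by rw [le_div_iff₀ (by positivity)]; exact hYR
  have hY2 : (Y.card : ℝ) / N ≤ 1 / 2 ^ 14 := by
    rw [div_le_div_iff₀ hN0 (by positivity), one_mul]
    have h2 : (2 : ℝ) ^ 14 ≤ 2 ^ (a + 14) := pow_le_pow_right₀ (by norm_num) (by omega)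
    calc (Y.card : ℝ) * 2 ^ 14 ≤ Y.card * 2 ^ (a + 14) := by gcongr
      _ ≤ D := hYR
      _ ≤ N := by rw [hNR]; linarith
  -- the mean
  have hER : (D : ℝ) ^ 2 ≤ 2 ^ (3 * a + 33) * E.card := by exact_mod_cast hDE
  have hE2 : 999 / 1000 * u ≤ (E.card : ℝ) / (2 * N) := by
    rw [le_div_iff₀ (by positivity), hNR]
    have h2 : (2 : ℝ) ^ (3 * a + 34) = 2 * 2 ^ (3 * a + 33) := by rw [pow_succ]; ring
    have h3 : u * 2 ^ (3 * a + 34) = D := by rw [hu]; field_simp
    have hp : (0 : ℝ) < 2 ^ (3 * a + 33) := by positivity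
    have h4 : 2 * 2 ^ (3 * a + 33) * u = D := by rw [← h3, h2]; ring
    have h5 : 999 / 1000 * (D * (D + 1)) ≤ (D : ℝ) ^ 2 := by nlinarith
    have h6 : 999 / 1000 * u * (2 * (D + 1)) * 2 ^ (3 * a + 33) ≤
        E.card * 2 ^ (3 * a + 33) := by
      calc 999 / 1000 * u * (2 * (D + 1)) * 2 ^ (3 * a + 33)
          = 999 / 1000 * ((2 * 2 ^ (3 * a + 33) * u) * (D + 1)) := by ring
        _ = 999 / 1000 * (D * (D + 1)) := by rw [h4]
        _ ≤ (D : ℝ) ^ 2 := h5
        _ ≤ 2 ^ (3 * a + 33) * E.card := hER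
        _ = E.card * 2 ^ (3 * a + 33) := by ring
    exact le_of_mul_le_mul_right h6 hp
  have hmean : 99 / 100 * u ≤
      (∑ ω : X → Fin N, ((two Y E ω).card : ℝ)) / (Fintype.card (X → Fin N) : ℝ) := by
    rw [hcard, le_div_iff₀ hNpow]
    have h1 := two_mean hN Y E hE
    refine le_trans ?_ h1
    rw [mul_comm]
    refine mul_le_mul_of_nonneg_left ?_ hNpow.le
    have h2 : (1 : ℝ) - 1 / 2 ^ 14 ≤ 1 - (Y.card : ℝ) / N := by linarith
    calc 99 / 100 * u ≤ 999 / 1000 * u * (1 - 1 / 2 ^ 14) := by nlinarith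
      _ ≤ (E.card : ℝ) / (2 * N) * (1 - (Y.card : ℝ) / N) :=
        mul_le_mul hE2 h2 (by norm_num) (by positivity)
  -- McDiarmid
  haveI : Nonempty (Fin N) := ⟨⟨0, by omega⟩⟩
  have hV0 : (0 : ℝ) < 4 * (D / 2 ^ (a + 14)) := by positivity
  have hmc := Pool.Agent.QCube.mcd_lower (I := X) (X := Fin N) (fun ω => ((two Y E ω).card : ℝ))
    (fun i => if i ∈ Y then 2 else 0) (fun i => by split_ifs <;> norm_num)
    (fun i s s' h => by
      rw [abs_le]
      constructor
      · have := two_diff Y E hE i s' s (fun j hj => (h j hj).symm)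
        linarith
      · exact two_diff Y E hE i s s' h)
    (4 * (D / 2 ^ (a + 14))) (74 / 100 * u) (by
      have : ∑ i : X, (if i ∈ Y then (2 : ℝ) else 0) ^ 2 = 4 * Y.card := by
        have h1 : ∀ i : X, (if i ∈ Y then (2 : ℝ) else 0) ^ 2 = if i ∈ Y then (4 : ℝ) else 0 := by
          intro i; split_ifs <;> norm_num
        simp_rw [h1]
        rw [Finset.sum_ite_mem, univ_inter, sum_const, nsmul_eq_mul]
        ring
      rw [this]
      linarith) hV0 (by positivity)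
  have hsub : (univ.filter (fun ω : X → Fin N =>
      ((two Y E ω).card : ℝ) < D / 2 ^ (3 * a + 36))) ⊆
      univ.filter (fun ω : X → Fin N => ((two Y E ω).card : ℝ) ≤
        (∑ ω : X → Fin N, ((two Y E ω).card : ℝ)) / (Fintype.card (X → Fin N) : ℝ) -
          74 / 100 * u) := by
    intro ω hω
    rw [mem_filter] at hω ⊢
    refine ⟨mem_univ _, ?_⟩
    have h1 : (D : ℝ) / 2 ^ (3 * a + 36) = 1 / 4 * u := by
      rw [hu, show 3 * a + 36 = (3 * a + 34) + 2 by ring, pow_add]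
      field_simp
      norm_num
    have h2 := hω.2
    rw [h1] at h2
    linarith
  have h6 : ((univ.filter (fun ω : X → Fin N =>
      ((two Y E ω).card : ℝ) < D / 2 ^ (3 * a + 36))).card : ℝ) ≤
      ((univ.filter (fun ω : X → Fin N => ((two Y E ω).card : ℝ) ≤
        (∑ ω : X → Fin N, ((two Y E ω).card : ℝ)) / (Fintype.card (X → Fin N) : ℝ) -
          74 / 100 * u)).card : ℝ) := by exact_mod_cast card_le_card hsub
  refine h6.trans (le_trans hmc ?_)
  rw [hcard]
  refine mul_le_mul_of_nonneg_right ?_ hNpow.le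
  apply Real.exp_le_exp.2
  have h7 : (74 / 100 * u) ^ 2 / (2 * (4 * (D / 2 ^ (a + 14)))) =
      (74 / 100) ^ 2 * (D / 2 ^ (5 * a + 57)) := by
    rw [hu]
    have e1 : (2 : ℝ) ^ (3 * a + 34) = 2 ^ a * 2 ^ a * 2 ^ a * 2 ^ 34 := by
      rw [pow_add, show 3 * a = a + a + a by ring, pow_add, pow_add]
    have e2 : (2 : ℝ) ^ (a + 14) = 2 ^ a * 2 ^ 14 := pow_add _ _ _
    have e3 : (2 : ℝ) ^ (5 * a + 57) = 2 ^ a * 2 ^ a * 2 ^ a * 2 ^ a * 2 ^ a * 2 ^ 57 := by
      rw [pow_add, show 5 * a = a + a + a + a + a by ring, pow_add, pow_add, pow_add, pow_add]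
    rw [e1, e2, e3]
    have hp : (0 : ℝ) < 2 ^ a := by positivity
    field_simp
    norm_num
  have h8 : (D : ℝ) / 2 ^ (5 * a + 59) = 1 / 4 * (D / 2 ^ (5 * a + 57)) := by
    rw [show 5 * a + 59 = (5 * a + 57) + 2 by ring, pow_add]
    field_simp
    norm_num
  have h9 : (0 : ℝ) < D / 2 ^ (5 * a + 57) := by positivity
  have h10 : -((74 / 100 * u) ^ 2) / (2 * (4 * (D / 2 ^ (a + 14)))) =
      -((74 / 100) ^ 2 * (D / 2 ^ (5 * a + 57))) := by rw [← h7]; ring
  rw [h10, neg_div, h8]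
  nlinarith

end Pool.Agent.K1H34.HYC
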